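import Pool.Agent.Helper66_D1.Stmts
import Pool.Agent.Helper96_PP.Asm

/-!
# AWC, part D1, module FD1: the theorem on blocks of relative defect one, in terms of characters
-/

open scoped BigOperators

set_option linter.unusedSectionVars false

noncomputable section

namespace Pool.Agent.PP.D1.H27

open Pool.Agent.Helper51_AWC Pool.Agent.Helper79_WRA Pool.Agent.PP
open Pool.Agent.PP.H75 (push push_eq cj Om Bd)

/-! ### Class sums and homomorphisms -/

section push

variable {A B : Type} [Group A] [Group B] [Finite A] [Finite B]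

/-- the number of conjugates of `x` with the same image -/
def mm (p : A →* B) (x : A) : ℕ := Nat.card {z : A // (∃ g, z = g * x * g⁻¹) ∧ p z = p x}

theorem card_mm {p : A →* B} (hp : Function.Surjective p) (x : A) :
    Nat.card (Subgroup.centralizer ({x} : Set A)) * mm p x =
      Nat.card p.ker * Nat.card (Subgroup.centralizer ({p x} : Set B)) := by
  classical
  obtain ⟨W, hW⟩ : ∃ W : Subgroup A, W = (Subgroup.centralizer ({p x} : Set B)).comap p :=
    ⟨_, rfl⟩
  have h1 : Nat.card W = Nat.card p.ker * Nat.card (Subgroup.centralizer ({p x} : Set B)) := by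
    rw [hW]
    exact H75.card_comap hp _
  rw [← h1]
  have hCW : Subgroup.centralizer ({x} : Set A) ≤ W := by
    intro g hg
    rw [hW, Subgroup.mem_comap]
    rw [Subgroup.mem_centralizer_singleton_iff] at hg ⊢
    rw [← map_mul, hg, map_mul]
  have h2 : Nat.card W = Nat.card (W ⧸ (Subgroup.centralizer ({x} : Set A)).subgroupOf W) *
      Nat.card ((Subgroup.centralizer ({x} : Set A)).subgroupOf W) :=
    Subgroup.card_eq_card_quotient_mul_card_subgroup _
  have h3 : Nat.card ((Subgroup.centralizer ({x} : Set A)).subgroupOf W) =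
      Nat.card (Subgroup.centralizer ({x} : Set A)) :=
    Nat.card_congr (Subgroup.subgroupOfEquivOfLe hCW).toEquiv
  rw [h2, h3, mul_comm]
  congr 1
  unfold mm
  symm
  refine Nat.card_congr (Equiv.ofBijective
    (fun q => Quotient.liftOn' q (fun w => (⟨w.1 * x * w.1⁻¹, ⟨w.1, rfl⟩, ?_⟩ :
      {z : A // (∃ g, z = g * x * g⁻¹) ∧ p z = p x})) ?_) ⟨?_, ?_⟩)
  · have hw : ∀ v ∈ W, p v * p x = p x * p v := by
      intro v hv
      rw [hW, Subgroup.mem_comap, Subgroup.mem_centralizer_singleton_iff] at hv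
      exact hv
    rw [map_mul, map_mul, map_inv, hw w.1 w.2, mul_inv_cancel_right]
  · intro v w hvw
    rw [QuotientGroup.leftRel_apply, Subgroup.mem_subgroupOf,
      Subgroup.mem_centralizer_singleton_iff] at hvw
    apply Subtype.ext
    change v.1 * x * v.1⁻¹ = w.1 * x * w.1⁻¹
    have h4 : (v.1⁻¹ * w.1) * x = x * (v.1⁻¹ * w.1) := hvw
    have h5 : w.1 * x = v.1 * (x * (v.1⁻¹ * w.1)) := by
      rw [← h4]
      group
    rw [h5]
    group
  · intro q q'
    refine Quotient.inductionOn₂' q q' fun v w h => ?_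
    apply Quotient.sound'
    rw [QuotientGroup.leftRel_apply, Subgroup.mem_subgroupOf,
      Subgroup.mem_centralizer_singleton_iff]
    have h4 : v.1 * x * v.1⁻¹ = w.1 * x * w.1⁻¹ := congrArg Subtype.val h
    change (v.1⁻¹ * w.1) * x = x * (v.1⁻¹ * w.1)
    have h5 : w.1 * x = v.1 * x * v.1⁻¹ * w.1 := by
      rw [h4]
      group
    calc (v.1⁻¹ * w.1) * x = v.1⁻¹ * (w.1 * x) := by group
      _ = v.1⁻¹ * (v.1 * x * v.1⁻¹ * w.1) := by rw [h5]
      _ = x * (v.1⁻¹ * w.1) := by group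
  · rintro ⟨z, ⟨g, rfl⟩, hg⟩
    have hgW : g ∈ W := by
      rw [hW, Subgroup.mem_comap, Subgroup.mem_centralizer_singleton_iff]
      rw [map_mul, map_mul, map_inv, mul_inv_eq_iff_eq_mul] at hg
      exact hg
    exact ⟨Quotient.mk'' ⟨g, hgW⟩, rfl⟩

theorem clsum_pos {F : Type} [Field F] {x z : A} (h : ∃ r, z = r * x * r⁻¹) :
    clsum F ⊤ x z = 1 := by
  obtain ⟨r, hr⟩ := h
  unfold clsum
  rw [if_pos ⟨r, Subgroup.mem_top _, hr⟩]

theorem clsum_neg {F : Type} [Field F] {x z : A} (h : ¬ ∃ r, z = r * x * r⁻¹) :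
    clsum F ⊤ x z = 0 := by
  unfold clsum
  rw [if_neg]
  rintro ⟨r, -, hr⟩
  exact h ⟨r, hr⟩

/-- the image of a class sum -/
theorem push_cls {F : Type} [Field F] (p : A →* B) (hp : Function.Surjective p) (x : A) :
    push p (clsum F ⊤ x) = fun y => (mm p x : F) * clsum F ⊤ (p x) y := by
  classical
  have := Fintype.ofFinite A
  funext y
  rw [push_eq]
  by_cases h : ∃ q, y = q * p x * q⁻¹
  · rw [clsum_pos h, mul_one]
    obtain ⟨q, rfl⟩ := h
    obtain ⟨g, rfl⟩ := hp q
    have h1 : ∀ z : A, (if p z = p g * p x * (p g)⁻¹ then clsum F ⊤ x z else 0) =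
        if p z = p g * p x * (p g)⁻¹ ∧ (∃ r, z = r * x * r⁻¹) then (1 : F) else 0 := by
      intro z
      by_cases h2 : p z = p g * p x * (p g)⁻¹
      · rw [if_pos h2]
        by_cases h3 : ∃ r, z = r * x * r⁻¹
        · rw [if_pos (And.intro h2 h3), clsum_pos h3]
        · rw [if_neg (fun h4 => h3 h4.2), clsum_neg h3]
      · rw [if_neg h2, if_neg (fun h4 => h2 h4.1)]
    rw [Finset.sum_congr rfl (fun z _ => h1 z), Finset.sum_boole]
    congr 1
    unfold mm
    rw [Nat.card_eq_fintype_card, Fintype.card_subtype]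
    refine Finset.card_bij (fun z _ => g⁻¹ * z * g) ?_ ?_ ?_
    · intro z hz
      rw [Finset.mem_filter] at hz ⊢
      obtain ⟨-, h2, r, rfl⟩ := hz
      refine ⟨Finset.mem_univ _, ⟨g⁻¹ * r, by group⟩, ?_⟩
      rw [map_mul, map_mul, h2, map_inv]
      group
    · intro z _ z' _ h2
      have h3 : g⁻¹ * z = g⁻¹ * z' := mul_right_cancel h2
      exact mul_left_cancel h3
    · intro z hz
      rw [Finset.mem_filter] at hz
      obtain ⟨-, ⟨r, rfl⟩, h2⟩ := hz
      refine ⟨g * (r * x * r⁻¹) * g⁻¹, ?_, by group⟩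
      rw [Finset.mem_filter]
      refine ⟨Finset.mem_univ _, ?_, g * r, by group⟩
      rw [map_mul, map_mul, h2, map_inv]
  · rw [clsum_neg h, mul_zero]
    apply Finset.sum_eq_zero
    intro z _
    by_cases h1 : p z = y
    · rw [if_pos h1, clsum_neg]
      rintro ⟨r, rfl⟩
      apply h
      refine ⟨p r, ?_⟩
      rw [← h1, map_mul, map_mul, map_inv]
    · rw [if_neg h1]

theorem clsum_cl {F : Type} [Field F] (x : A) : IsCl (clsum F ⊤ x) := by
  intro z g
  have := congrFun (H75.clsum_inv (F := F) (Q := (⊤ : Subgroup A)) x g⁻¹ (Subgroup.mem_top _)) z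
  rw [cj, inv_inv] at this
  exact this

theorem br_smul {F : Type} [Field F] (Q : Subgroup A) (c : F) (a : A → F) :
    br Q (fun y => c * a y) = fun y => c * br Q a y := by
  funext y
  by_cases h : y ∈ Subgroup.centralizer (Q : Set A)
  · rw [H66.br_of_mem h, H66.br_of_mem h]
  · rw [H66.br_of_not_mem h, H66.br_of_not_mem h, mul_zero]

theorem exists_of_br_ne {F : Type} [Field F] {Q : Subgroup A} {a : A → F} (h : br Q a ≠ 0) :
    ∃ y ∈ Subgroup.centralizer (Q : Set A), a y ≠ 0 := by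
  by_contra hcon
  apply h
  funext y
  by_cases hy : y ∈ Subgroup.centralizer (Q : Set A)
  · rw [H66.br_of_mem hy]
    by_contra h0
    exact hcon ⟨y, hy, h0⟩
  · rw [H66.br_of_not_mem hy]
    rfl

theorem br_ne_of {F : Type} [Field F] {Q : Subgroup A} {a : A → F} {y : A}
    (hy : y ∈ Subgroup.centralizer (Q : Set A)) (h : a y ≠ 0) : br Q a ≠ 0 := by
  intro h0
  apply h
  have := congrFun h0 y
  rwa [H66.br_of_mem hy] at this

end push

/-! ### The image of the block of the normal subgroup -/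

section core

variable {M : Ideal (integralClosure ℤ ℂ)} {A B : Type} [Group A] [Group B] [Finite A] [Finite B]

/-- the iterated product with a class sum -/
theorem res_iter [M.IsMaximal] : letI := Ideal.Quotient.field M
    ∀ {ψ : A → ℂ}, ψ ∈ Irr A → ∀ {a b : A → FF M}, IsCl a → IsCl b → ∀ n : ℕ,
      IsCl ((mulF a)^[n] b) ∧ res M ((mulF a)^[n] b) ψ = res M a ψ ^ n * res M b ψ := by
  let _ := Ideal.Quotient.field M
  intro ψ hψ a b ha hb n
  induction n with
  | zero => exact ⟨hb, by rw [pow_zero, one_mul]; rfl⟩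
  | succ n ih =>
    rw [Function.iterate_succ_apply']
    refine ⟨H75.isCl_mulF ha ih.1, ?_⟩
    rw [H75.res_mulF hψ ha ih.1, ih.2, pow_succ']
    ring

/-- the defect of the image -/
theorem core (inv : InvStmt) {ℓ : ℕ} (hℓ : ℓ.Prime) [M.IsMaximal]
    (hM : (ℓ : integralClosure ℤ ℂ) ∈ M) (fld : FldStmt) {p : A →* B}
    (hp : Function.Surjective p) (hkO : p.ker = opCore ℓ A) :
    letI := Ideal.Quotient.field M
    ∀ {ψ : A → ℂ}, ψ ∈ Irr A → ∀ {b : A → FF M}, IsBlk b → res M b ψ = 1 → SmallDefect ℓ M ψ →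
      ∀ Q : Subgroup B, IsPGroup ℓ Q → br Q (push p b) ≠ 0 → Nat.card Q ≤ ℓ := by
  let _ := Ideal.Quotient.field M
  intro ψ hψ b hb hb1 hS Q hQ hbr
  have hF : GoodF ℓ (FF M) := fld ℓ hℓ M hM
  have hfact := Fact.mk hℓ
  obtain ⟨x, hx0, hx⟩ := hS
  have hcl : IsCl (clsum (FF M) ⊤ x) := clsum_cl x
  have hlab : res M (clsum (FF M) ⊤ x) ψ ≠ 0 := by
    rw [H75.res_clsum x]
    exact hx0
  obtain ⟨u, hu, hbu⟩ := inv ℓ (FF M) hF A b (clsum (FF M) ⊤ x) hb hcl (by
    intro n h0
    have h1 := (res_iter (M := M) hψ hcl hb.1.1 n).2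
    rw [h0, H75.res_zero, hb1, mul_one] at h1
    exact pow_ne_zero n hlab h1.symm)
  have hbp : mulF (push p b) (mulF (push p (clsum (FF M) ⊤ x)) (push p u)) = push p b := by
    rw [← H75.push_mulF, ← H75.push_mulF, hbu]
  have c1 := H75.push_isCl hp hb.1.1
  have c2 := H75.push_isCl hp hcl
  have c3 := H75.push_isCl hp hu
  have h2 : br Q (push p (clsum (FF M) ⊤ x)) ≠ 0 := by
    intro h0
    apply hbr
    rw [← hbp, H66.br_mulF hF hQ (H66.IsCl.inv c1 Q) (H66.IsCl.inv (H75.isCl_mulF c2 c3) Q),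
      H66.br_mulF hF hQ (H66.IsCl.inv c2 Q) (H66.IsCl.inv c3 Q), h0, H75.mulF_zero_left,
      H75.mulF_zero_right]
  rw [push_cls p hp x, br_smul] at h2
  have hm : (mm p x : FF M) ≠ 0 := by
    intro h0
    apply h2
    funext y
    rw [h0, zero_mul]
    rfl
  have h3 : br Q (clsum (FF M) ⊤ (p x)) ≠ 0 := by
    intro h0
    apply h2
    funext y
    rw [h0]
    exact mul_zero _
  obtain ⟨y, hy, hyne⟩ := exists_of_br_ne h3
  obtain ⟨r, hr⟩ : ∃ r, y = r * p x * r⁻¹ := by
    by_contra hcon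
    exact hyne (clsum_neg hcon)
  -- `Q` centralises a conjugate of `p x`
  have hle : conjS r⁻¹ Q ≤ Subgroup.centralizer ({p x} : Set B) := by
    intro z hz
    rw [mem_conjS, inv_inv] at hz
    rw [Subgroup.mem_centralizer_singleton_iff]
    have h4 := Subgroup.mem_centralizer_iff.1 hy _ hz
    rw [hr] at h4
    have h5 : r * (z * p x) * r⁻¹ = r * (p x * z) * r⁻¹ := by
      calc r * (z * p x) * r⁻¹ = r * z * r⁻¹ * (r * p x * r⁻¹) := by group
        _ = r * p x * r⁻¹ * (r * z * r⁻¹) := h4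
        _ = r * (p x * z) * r⁻¹ := by group
    exact mul_left_cancel (mul_right_cancel h5)
  have hdvd : Nat.card Q ∣ Nat.card (Subgroup.centralizer ({p x} : Set B)) := by
    have h4 := Subgroup.card_dvd_of_le hle
    rwa [card_conjS] at h4
  obtain ⟨k, hk⟩ := (IsPGroup.iff_card).1 hQ
  -- `ℓ²` does not divide the order of the centraliser of `p x`
  have hnd : ¬ ℓ ^ 2 ∣ Nat.card (Subgroup.centralizer ({p x} : Set B)) := by
    intro hd
    apply hx
    have h5 := card_mm hp x
    have h6 : ℓ ^ 2 * Nat.card (opCore ℓ A) ∣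
        Nat.card (Subgroup.centralizer ({x} : Set A)) * mm p x := by
      rw [h5, ← hkO, mul_comm (ℓ ^ 2)]
      exact mul_dvd_mul_left _ hd
    obtain ⟨j, hj⟩ := (IsPGroup.iff_card).1 (H75.opCore_isPGroup (A := A) hℓ)
    rw [hj, ← pow_add] at h6 ⊢
    refine (Nat.Coprime.dvd_of_dvd_mul_right ?_ h6)
    apply Nat.Coprime.pow_left
    rw [Nat.Prime.coprime_iff_not_dvd hℓ]
    intro h7
    apply hm
    have := hF.char
    exact (CharP.cast_eq_zero_iff (FF M) ℓ _).2 h7
  rw [hk]
  rw [hk] at hdvd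
  have hk1 : k ≤ 1 := by
    by_contra h7
    exact hnd ((pow_dvd_pow ℓ (by omega)).trans hdvd)
  calc ℓ ^ k ≤ ℓ ^ 1 := Nat.pow_le_pow_right hℓ.pos hk1
    _ = ℓ := pow_one ℓ

end core

section main

variable {F A B : Type} [Field F] [Group A] [Group B] [Finite A] [Finite B]

theorem push_cj (p : A →* B) (g : A) (a : A → F) : push p (cj g a) = cj (p g) (push p a) := by
  classical
  have := Fintype.ofFinite A
  funext y
  rw [cj, push_eq, push_eq, ← Equiv.sum_comp (MulAut.conj g).toEquiv]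
  apply Finset.sum_congr rfl
  intro x _
  change (if p (g * x * g⁻¹) = y then a (g⁻¹ * (g * x * g⁻¹) * g) else 0) = _
  have h1 : g⁻¹ * (g * x * g⁻¹) * g = x := by group
  rw [h1]
  by_cases h : p x = (p g)⁻¹ * y * p g
  · rw [if_pos h, if_pos]
    rw [map_mul, map_mul, map_inv, h]
    group
  · rw [if_neg h, if_neg]
    intro h2
    apply h
    rw [← h2, map_mul, map_mul, map_inv]
    group

theorem push_supp (p : A →* B) {N : Subgroup A} {a : A → F} (h : ∀ x, x ∉ N → a x = 0) :
    ∀ y, y ∉ N.map p → push p a y = 0 := by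
  classical
  have := Fintype.ofFinite A
  intro y hy
  rw [push_eq]
  apply Finset.sum_eq_zero
  intro x _
  by_cases h1 : p x = y
  · rw [if_pos h1]
    apply h
    intro hx
    exact hy ⟨x, hx, h1⟩
  · rw [if_neg h1]

theorem push_fsum {ι : Type} (s : Finset ι) (p : A →* B) (f : ι → A → F) (y : B) :
    push p (fun x => ∑ i ∈ s, f i x) y = ∑ i ∈ s, push p (f i) y := by
  classical
  have := Fintype.ofFinite A
  rw [push_eq]
  have h1 : ∀ i ∈ s, push p (f i) y = ∑ x : A, if p x = y then f i x else 0 :=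
    fun i _ => push_eq p (f i) y
  rw [Finset.sum_congr rfl h1, Finset.sum_comm]
  apply Finset.sum_congr rfl
  intro x _
  by_cases h : p x = y
  · rw [if_pos h]
    exact Finset.sum_congr rfl fun i _ => (if_pos h).symm
  · rw [if_neg h]
    exact (Finset.sum_eq_zero fun i _ => if_neg h).symm

/-- FD1 -/
theorem fd1 (d1a : D1aStmt) (inv : InvStmt) : Fd1Stmt := by
  classical
  intro ℓ hℓ M _ hM G _ _ hc N hN χ hχ ψ hψ hχψ hL hS
  let _ := Ideal.Quotient.field M
  have hfact := Fact.mk hℓ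
  have hF : GoodF ℓ (FF M) := H50.fld ℓ hℓ M hM
  have hn := H75.opCore_normal (A := G) ℓ
  obtain ⟨e, he, h1, h2⟩ := H50.bid ℓ hℓ M hM G χ hχ
  obtain ⟨b, hb, hb1, -⟩ := H50.bid ℓ hℓ M hM N ψ hψ
  set p : G →* G ⧸ opCore ℓ G := QuotientGroup.mk' (opCore ℓ G) with hp
  have hker : p.ker = opCore ℓ G := QuotientGroup.ker_mk' _
  have hsurj : Function.Surjective p := QuotientGroup.mk'_surjective (opCore ℓ G)
  have hkp : IsPGroup ℓ p.ker := by
    rw [hker]
    exact H75.opCore_isPGroup hℓ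
  have hkc : p.ker ≤ Subgroup.center G := by
    rw [hker]
    exact hc
  have hpos : Pos ℓ (push p e) (N.map p) :=
    H75.pos_rel H96.lemQ_ H50.bid H50.fld hℓ hM hsurj hker hkc hN hχ he h1 hψ hχψ hL
  have heq := H75.altSum_central H20.nls H20.brm H63.smt H94.nch
    (H50.dic H20.ibn H20.nls H20.brm) hℓ M hM hF hsurj hker hkp hkc χ hχ e he h1 h2
  -- the sum of the conjugates of the block of `ψ`
  have hover : (∑ᶠ n : N, χ n * ψ n⁻¹) ≠ 0 := by
    intro h0
    apply hχψ
    rw [← h0]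
    apply finsum_congr
    intro n
    rw [H94.irr_star hψ]
  have hB : Bd N (ext0 N b) := ⟨hN, fun x hx => H46.ext0_of_not_mem _ hx, by
    rw [H46.restr_ext0]; exact hb⟩
  have := Fintype.ofFinite (Om (ext0 N b))
  obtain ⟨h, hh⟩ : ∃ h : G → FF M, h = fun x => ∑ f : Om (ext0 N b), f.1 x := ⟨_, rfl⟩
  have hidem : IsIdem h := by rw [hh]; exact hB.fam.isIdem
  have hsupp : ∀ x, x ∉ N → h x = 0 := by
    intro x hx
    rw [hh]
    exact Finset.sum_eq_zero fun f _ => hB.supp2 f x hx
  have hhb : mulF h (ext0 N b) = ext0 N b := by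
    have := hB.fam.mul_sum Finset.univ (Finset.mem_univ (H75.omk (ext0 N b) 1))
    rw [H75.omk_one] at this
    rw [hh]
    exact this
  have hN1 : IsIdem (fun t : N => h t) := by
    refine ⟨fun x y => hidem.1 _ _, ?_⟩
    rw [← H75.mulF_res N h hsupp, hidem.2]
  have k1 : mulF (fun t : N => h t) b = b := by
    have e1 := H75.mulF_res N (ext0 N b) hsupp
    rw [H46.restr_ext0, hhb, H46.restr_ext0] at e1
    exact e1.symm
  have k2 : res M (fun t : N => h t) ψ = 1 := by
    have e1 := H75.res_mulF hψ hN1.1 hb.1.1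
    rw [k1, hb1, mul_one] at e1
    exact e1.symm
  have k3 : res M h χ = 1 := by
    rw [H94.res_over N hN hχ hψ hover hidem.1 hsupp, k2]
  have k4 : mulF e h ≠ 0 := by
    intro h0
    have e1 := H75.res_mulF hχ he.1.1 hidem.1
    rw [h0, H75.res_zero, h1, k3, mul_one] at e1
    exact zero_ne_one e1
  have k5 : mulF e h = e := (he.2.2 h hidem).resolve_right k4
  -- the map on `N`
  have hqk : (p.subgroupMap N).ker = p.ker.subgroupOf N := by
    ext x
    rw [MonoidHom.mem_ker, Subgroup.mem_subgroupOf, MonoidHom.mem_ker]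
    constructor
    · intro h
      exact congrArg Subtype.val h
    · intro h
      exact Subtype.ext h
  have hqO : (p.subgroupMap N).ker = opCore ℓ N := by
    rw [hqk, hker, H75.opCore_sub hℓ hN]
  have hNB : (N.map p).Normal := hN.map p hsurj
  have hdfo : DfO ℓ (N.map p) (push p e) := by
    refine ⟨push p h, H75.push_isIdem hsurj hidem, push_supp p hsupp, ?_, ?_⟩
    · rw [← H75.push_mulF, k5]
    · intro Q hQN hQ hbr
      obtain ⟨y, hy, hyne⟩ := exists_of_br_ne hbr
      rw [hh, push_fsum] at hyne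
      obtain ⟨f, -, hf⟩ := Finset.exists_ne_zero_of_sum_ne_zero hyne
      obtain ⟨g, rfl⟩ := H75.omk_surj f
      change push p (cj g (ext0 N b)) y ≠ 0 at hf
      rw [push_cj, H75.push_ext0, cj] at hf
      have hyN : (p g)⁻¹ * y * p g ∈ N.map p := by
        by_contra hcon
        exact hf (H46.ext0_of_not_mem _ hcon)
      rw [H46.ext0_of_mem _ hyN] at hf
      have hle : conjS (p g)⁻¹ Q ≤ N.map p := by
        intro z hz
        rw [mem_conjS, inv_inv] at hz
        have h3 := hNB.conj_mem _ (hQN hz) (p g)⁻¹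
        have h4 : (p g)⁻¹ * (p g * z * (p g)⁻¹) * (p g)⁻¹⁻¹ = z := by group
        rwa [h4] at h3
      have h5 := core inv hℓ hM H50.fld (p.subgroupMap_surjective N) hqO hψ hb hb1 hS
        ((conjS (p g)⁻¹ Q).subgroupOf (N.map p)) ?_ (br_ne_of
          (y := ⟨(p g)⁻¹ * y * p g, hyN⟩) ?_ hf)
      · rw [Nat.card_congr (Subgroup.subgroupOfEquivOfLe hle).toEquiv, card_conjS] at h5
        exact h5
      · have hQ' : IsPGroup ℓ (conjS (p g)⁻¹ Q) := by
          rw [IsPGroup.iff_card] at hQ ⊢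
          rw [card_conjS]
          exact hQ
        exact hQ'.of_equiv (Subgroup.subgroupOfEquivOfLe hle).symm
      · rw [Subgroup.mem_centralizer_iff]
        intro z hz
        have hz' : (z : G ⧸ opCore ℓ G) ∈ conjS (p g)⁻¹ Q := hz
        rw [mem_conjS, inv_inv] at hz'
        have h6 := Subgroup.mem_centralizer_iff.1 hy _ hz'
        apply Subtype.ext
        change (z : G ⧸ opCore ℓ G) * ((p g)⁻¹ * y * p g) = (p g)⁻¹ * y * p g * z
        calc (z : G ⧸ opCore ℓ G) * ((p g)⁻¹ * y * p g) =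
            (p g)⁻¹ * ((p g * z * (p g)⁻¹) * y) * p g := by group
          _ = (p g)⁻¹ * (y * (p g * z * (p g)⁻¹)) * p g := by rw [h6]
          _ = (p g)⁻¹ * y * p g * z := by group
  have h0 : YY ℓ (⊤ : Subgroup (G ⧸ opCore ℓ G)) (push p e) = 0 :=
    d1a ℓ (FF M) hF _ (N.map p) hNB _ (H75.push_isIdem hsurj he.1) hpos hdfo
  rw [h0, mul_zero] at heq
  rcases mul_eq_zero.1 heq with h | h
  · exact absurd h (by exact_mod_cast (Nat.card_pos (α := G)).ne')
  · exact h

end main

end Pool.Agent.PP.D1.H27
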